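import Pool.Agent.Helper37.SY.Spec
import Pool.Agent.Helper54.LP.COR
import Pool.Agent.Helper77.LM.Gauge

/-!
Swarm SY, part STR: strict Chebyshev inequality for the radial coordinate.
-/

set_option autoImplicit false

noncomputable section

open MeasureTheory Set Filter Topology
open scoped ENNReal

namespace Pool.Agent.Helper89.SY.STR

open Pool.Agent.Helper77.LM Helper63.LP Pool.Agent.Helper54.LP.COR

/-- strictness in the comparison with a constant -/
theorem const_lt {n : ℕ} {g : (Fin n → ℝ) → ℝ} {c : ℝ} (hg : Continuous g)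
    (h0 : ∀ x ∈ Dl n, c ≤ g x) {x1 : Fin n → ℝ} (hx1 : x1 ∈ interior (Dl n)) (h1 : c < g x1) :
    c * V n < ∫ x in Dl n, g x := by
  have hint : IntegrableOn g (Dl n) := hg.continuousOn.integrableOn_compact isCompact_Dl
  have hc : ∫ x in Dl n, c = c * V n := by
    simp only [V, integral_const, smul_eq_mul, Measure.real, Measure.restrict_apply_univ]
    ring
  rw [← hc, ← sub_pos, ← integral_sub hint (integrableOn_const vol_ne_top)]
  rw [setIntegral_pos_iff_support_of_nonneg_ae]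
  · have hU : IsOpen (interior (Dl n) ∩ {x | c < g x}) :=
      isOpen_interior.inter (isOpen_lt continuous_const hg)
    refine lt_of_lt_of_le (hU.measure_pos volume ⟨x1, hx1, h1⟩) (measure_mono ?_)
    rintro x ⟨hx, hx'⟩
    exact ⟨fun h => by
      have : g x - c = 0 := h
      have : c < g x := hx'
      linarith, interior_subset hx⟩
  · rw [EventuallyLE, ae_restrict_iff' isCompact_Dl.isClosed.measurableSet]
    exact Eventually.of_forall fun x hx => by
      have := h0 x hx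
      show 0 ≤ g x - c
      linarith
  · exact hint.sub (integrableOn_const vol_ne_top)

/-- the ray function is not constant -/
theorem exists_lt {k : ℕ} {f : (Fin (k + 2) → ℝ) → ℝ} (hf : Cls (k + 1) f) (hfc : Continuous f)
    (hlt : f (ctr (k + 1)) < f (Pi.single 0 1)) {s0 : ℝ} (h0 : 0 < s0) (h1 : s0 < 1) :
    ∃ s1, s0 < s1 ∧ s1 < 1 ∧ f (ctr (k + 1)) * V k < A k (Ts s1 f) := by
  set x0 : Fin k → ℝ := un (Pi.single 0 1 : Fin (k + 1) → ℝ) with hx0
  have hstd : (Pi.single 0 1 : Fin (k + 1) → ℝ) ∈ stdSimplex ℝ (Fin (k + 1)) :=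
    single_mem_stdSimplex ℝ 0
  have hbx0 : bary x0 = (Pi.single 0 1 : Fin (k + 1) → ℝ) := bary_un _ hstd.2
  have hx0m : x0 ∈ Dl k := by
    intro i
    rw [hbx0]
    exact hstd.1 i
  have hend : f (bary ((1 : ℝ) • bary ((1 : ℝ) • x0))) = f (Pi.single 0 1) := by
    rw [one_smul, one_smul, hbx0]
    have e1 : (bary (Pi.single 0 1 : Fin (k + 1) → ℝ) : Fin (k + 2) → ℝ) =
        fun i => (Pi.single 0 1 : Fin (k + 2) → ℝ) (Equiv.swap 0 1 i) := by
      have ht : tt (Pi.single 0 1 : Fin (k + 1) → ℝ) = 0 := by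
        have := tt_smul_std hstd 1
        rw [one_smul] at this
        rw [this]; simp
      funext i
      refine Fin.cases ?_ (fun j => ?_) i
      · rw [bary_zero, ht, Equiv.swap_apply_left]
        simp
      · rw [bary_succ, ht, add_zero]
        refine Fin.cases ?_ (fun m => ?_) j
        · have : (Fin.succ (0 : Fin (k + 1))) = (1 : Fin (k + 2)) := rfl
          rw [this, Equiv.swap_apply_right]
          simp
        · rw [Equiv.swap_apply_of_ne_of_ne (Fin.succ_ne_zero _) (by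
            intro h
            have h2 := congrArg Fin.val h
            simp at h2)]
          simp
    rw [e1]
    exact hf.sym _ _
  have hcont : Continuous fun s : ℝ => f (bary (s • bary (s • x0))) :=
    hfc.comp (continuous_bary.comp (continuous_id.smul
      (continuous_bary.comp (continuous_id.smul continuous_const))))
  have hev : ∀ᶠ s in 𝓝 (1 : ℝ), f (ctr (k + 1)) < f (bary (s • bary (s • x0))) := by
    have := hcont.tendsto 1
    refine this.eventually_const_lt ?_
    show f (ctr (k + 1)) < f (bary ((1 : ℝ) • bary ((1 : ℝ) • x0)))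
    rw [hend]; exact hlt
  have hev2 : ∀ᶠ s in 𝓝[<] (1 : ℝ), f (ctr (k + 1)) < f (bary (s • bary (s • x0))) :=
    hev.filter_mono nhdsWithin_le_nhds
  have hev3 : ∀ᶠ s in 𝓝[<] (1 : ℝ), s ∈ Ioo s0 1 := Ioo_mem_nhdsLT h1
  obtain ⟨s1, hs1, hs1'⟩ := (hev2.and hev3).exists
  refine ⟨s1, hs1'.1, hs1'.2, ?_⟩
  have hs1p : 0 < s1 := h0.trans hs1'.1
  have hx1 : s1 • x0 ∈ interior (Dl k) := by
    have h2 : (1 - s1) • (0 : Fin k → ℝ) + s1 • x0 ∈ interior (Dl k) :=
      convex_Dl.combo_interior_self_mem_interior (zero_mem_interior_Dl k) hx0m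
        (by linarith [hs1'.2]) hs1p.le (by ring)
    rwa [smul_zero, zero_add] at h2
  exact const_lt (g := fun x => Ts s1 f (bary x))
    (hfc.comp (continuous_bary.comp (continuous_bary.const_smul s1)))
    (fun x hx => ctr_le hf.sym hf.conv (bary_std (bary_mem_std hx) hs1p.le hs1'.2.le)) hx1 hs1

theorem main : Helper37.SY.S_STR := by
  intro k f hf hfc hlt
  have hk1 : (0 : ℝ) < (k : ℝ) + 1 := by positivity
  have hk2 : (0 : ℝ) < (k : ℝ) + 2 := by positivity
  set φ : ℝ → ℝ := fun s => A k (Ts s f) with hφ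
  set s0 : ℝ := ((k : ℝ) + 1) / ((k : ℝ) + 2) with hs0
  have hs0p : 0 < s0 := by positivity
  have hs01 : s0 < 1 := by rw [hs0, div_lt_one hk2]; linarith
  obtain ⟨s1, h01, h11, hs1⟩ := exists_lt hf hfc hlt hs0p hs01
  have hs1p : 0 < s1 := hs0p.trans h01
  have hmono : MonotoneOn φ (Icc 0 1) := hf.A_mono
  -- convexity on the ray
  have hst : φ s0 < φ s1 := by
    have key : φ s0 ≤ A k (fun l => (s0 / s1) * Ts s1 f l + (1 - s0 / s1) * f (ctr (k + 1))) := by
      refine A_mono (hf.toBd.ts hs0p.le hs01.le)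
        (((Bd.const _).mul (hf.toBd.ts hs1p.le h11.le)).add (Bd.const _)) ?_
      intro l hl
      have h1 := hf.conv.2 (bary_std hl hs1p.le h11.le)
        (bary_mem_std (x := (0 : Fin (k + 1) → ℝ))
          (by simpa using smul_std_mem hl le_rfl zero_le_one))
        (show (0 : ℝ) ≤ s0 / s1 from div_nonneg hs0p.le hs1p.le)
        (show (0 : ℝ) ≤ 1 - s0 / s1 by rw [sub_nonneg, div_le_one hs1p]; exact h01.le) (by ring)
      rw [← bary_add_smul _ _ (by ring)] at h1
      have e : (s0 / s1) • s1 • l + (1 - s0 / s1) • (0 : Fin (k + 1) → ℝ) = s0 • l := by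
        rw [smul_zero, add_zero, smul_smul, div_mul_cancel₀ _ hs1p.ne']
      rw [e, bary_zero_eq] at h1
      simp only [smul_eq_mul] at h1
      exact h1
    have e2 : A k (fun l => (s0 / s1) * Ts s1 f l + (1 - s0 / s1) * f (ctr (k + 1))) =
        (s0 / s1) * φ s1 + (1 - s0 / s1) * (f (ctr (k + 1)) * V k) := by
      have e3 := A_add (n := k) (f := fun l => (s0 / s1) * Ts s1 f l)
        (g := fun _ => (1 - s0 / s1) * f (ctr (k + 1)))
        ((Bd.const _).mul (hf.toBd.ts hs1p.le h11.le)) (Bd.const _)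
      rw [A_mul_const, A_const] at e3
      rw [e3, hφ]
      ring
    rw [e2] at key
    have h3 : s0 / s1 < 1 := by rw [div_lt_one hs1p]; exact h01
    have h4 : (1 - s0 / s1) * (f (ctr (k + 1)) * V k) < (1 - s0 / s1) * φ s1 :=
      mul_lt_mul_of_pos_left hs1 (by linarith)
    have h5 : (s0 / s1) * φ s1 + (1 - s0 / s1) * φ s1 = φ s1 := by ring
    linarith
  -- integrability
  obtain ⟨C, hC⟩ := hf.toBd.A_bound
  have hφm : Measurable φ := measurable_A_Ts hf.meas
  have hI : ∀ j : ℕ, IntegrableOn (fun s => s ^ j * φ s) (Ioc (0 : ℝ) 1) := fun j =>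
    integrable_unit_mul hφm j hC
  have hJ : ∀ j : ℕ, IntegrableOn (fun s : ℝ => s ^ j) (Ioc (0 : ℝ) 1) := fun j =>
    ((continuous_pow j).continuousOn.integrableOn_compact isCompact_Icc).mono_set Ioc_subset_Icc_self
  set κ : ℝ := s1 ^ k * ((s1 - s0) * (φ s1 - φ s0)) with hκ
  have hκ0 : 0 < κ := by
    have : 0 < s1 ^ k := by positivity
    exact mul_pos this (mul_pos (by linarith) (by linarith))
  have hlow : κ * (1 - s1) ≤
      ∫ s in Ioc (0 : ℝ) 1, (s ^ (k + 1) * φ s - s0 * (s ^ k * φ s) -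
        (φ s0 * s ^ (k + 1) - s0 * φ s0 * s ^ k)) := by
    have e1 : ∫ s in Ioc (0 : ℝ) 1, (Ioc s1 1).indicator (fun _ => κ) s = κ * (1 - s1) := by
      rw [setIntegral_indicator measurableSet_Ioc]
      have : Ioc (0 : ℝ) 1 ∩ Ioc s1 1 = Ioc s1 1 := by
        rw [inter_eq_right]
        exact Ioc_subset_Ioc_left hs1p.le
      rw [this, integral_const, smul_eq_mul, Measure.real, Measure.restrict_apply_univ,
        Real.volume_Ioc, ENNReal.toReal_ofReal (by linarith)]
      ring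
    rw [← e1]
    refine setIntegral_mono_on ?_ ?_ measurableSet_Ioc ?_
    · exact ((integrableOn_const (by simp)).indicator measurableSet_Ioc)
    · exact ((hI (k + 1)).sub ((hI k).const_mul _)).sub
        (((hJ (k + 1)).const_mul _).sub ((hJ k).const_mul _))
    · intro s hs
      have e2 : s ^ (k + 1) * φ s - s0 * (s ^ k * φ s) -
          (φ s0 * s ^ (k + 1) - s0 * φ s0 * s ^ k) = s ^ k * ((s - s0) * (φ s - φ s0)) := by
        rw [pow_succ]; ring
      rw [e2]
      have hsI : s ∈ Icc (0 : ℝ) 1 := ⟨hs.1.le, hs.2⟩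
      have h0I : s0 ∈ Icc (0 : ℝ) 1 := ⟨hs0p.le, hs01.le⟩
      have h1I : s1 ∈ Icc (0 : ℝ) 1 := ⟨hs1p.le, h11.le⟩
      by_cases h : s ∈ Ioc s1 1
      · rw [indicator_of_mem h, hκ]
        have h2 : s1 ^ k ≤ s ^ k := pow_le_pow_left₀ hs1p.le h.1.le k
        have h3 : φ s1 ≤ φ s := hmono h1I hsI h.1.le
        have h4 : (s1 - s0) * (φ s1 - φ s0) ≤ (s - s0) * (φ s - φ s0) :=
          mul_le_mul (by linarith [h.1]) (by linarith) (by linarith) (by linarith [h.1])
        exact mul_le_mul h2 h4 (mul_nonneg (by linarith) (by linarith)) (pow_nonneg hs.1.le k)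
      · rw [indicator_of_notMem h]
        refine mul_nonneg (pow_nonneg hs.1.le k) ?_
        rcases le_total s s0 with h5 | h5
        · have := hmono hsI h0I h5
          exact mul_nonneg_of_nonpos_of_nonpos (by linarith) (by linarith)
        · have := hmono h0I hsI h5
          exact mul_nonneg (by linarith) (by linarith)
  have hexp : ∫ s in Ioc (0 : ℝ) 1, (s ^ (k + 1) * φ s - s0 * (s ^ k * φ s) -
        (φ s0 * s ^ (k + 1) - s0 * φ s0 * s ^ k)) =
      (∫ s in Ioc (0 : ℝ) 1, s ^ (k + 1) * φ s) - s0 * ∫ s in Ioc (0 : ℝ) 1, s ^ k * φ s := by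
    have ha : IntegrableOn (fun s => s ^ (k + 1) * φ s) (Ioc (0 : ℝ) 1) := hI (k + 1)
    have hb : IntegrableOn (fun s => s0 * (s ^ k * φ s)) (Ioc (0 : ℝ) 1) := (hI k).const_mul s0
    have hc : IntegrableOn (fun s => φ s0 * s ^ (k + 1)) (Ioc (0 : ℝ) 1) :=
      (hJ (k + 1)).const_mul (φ s0)
    have hd : IntegrableOn (fun s => s0 * φ s0 * s ^ k) (Ioc (0 : ℝ) 1) :=
      (hJ k).const_mul (s0 * φ s0)
    have i1 : ∫ s in Ioc (0 : ℝ) 1, (s ^ (k + 1) * φ s - s0 * (s ^ k * φ s) -
        (φ s0 * s ^ (k + 1) - s0 * φ s0 * s ^ k)) =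
        (∫ s in Ioc (0 : ℝ) 1, (s ^ (k + 1) * φ s - s0 * (s ^ k * φ s))) -
          ∫ s in Ioc (0 : ℝ) 1, (φ s0 * s ^ (k + 1) - s0 * φ s0 * s ^ k) :=
      integral_sub (ha.sub hb) (hc.sub hd)
    have i2 : ∫ s in Ioc (0 : ℝ) 1, (s ^ (k + 1) * φ s - s0 * (s ^ k * φ s)) =
        (∫ s in Ioc (0 : ℝ) 1, s ^ (k + 1) * φ s) - ∫ s in Ioc (0 : ℝ) 1, s0 * (s ^ k * φ s) :=
      integral_sub ha hb
    have i3 : ∫ s in Ioc (0 : ℝ) 1, (φ s0 * s ^ (k + 1) - s0 * φ s0 * s ^ k) =
        (∫ s in Ioc (0 : ℝ) 1, φ s0 * s ^ (k + 1)) - ∫ s in Ioc (0 : ℝ) 1, s0 * φ s0 * s ^ k :=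
      integral_sub hc hd
    rw [i1, i2, i3, integral_const_mul, integral_const_mul, integral_const_mul, int_pow_unit,
      int_pow_unit]
    have : φ s0 * (1 / (((k + 1 : ℕ) : ℝ) + 1)) - s0 * φ s0 * (1 / ((k : ℝ) + 1)) = 0 := by
      rw [hs0]
      push_cast
      field_simp
      ring
    rw [this, sub_zero]
  have hkey : s0 * ∫ s in Ioc (0 : ℝ) 1, s ^ k * φ s < ∫ s in Ioc (0 : ℝ) 1, s ^ (k + 1) * φ s := by
    have : 0 < κ * (1 - s1) := mul_pos hκ0 (by linarith)
    linarith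
  -- the radial weight
  have hfs : Bd (k + 1) (fun l => f l * sg (k + 1) l) := hf.toBd.mul (bd_sg (k + 1))
  have hS : A (k + 1) (fun l => f l * sg (k + 1) l)
      = (((k : ℝ) + 2) / ((k : ℝ) + 1)) * ∫ s in Ioc (0 : ℝ) 1, s ^ (k + 1) * φ s := by
    rw [A_step hfs]
    congr 1
    refine setIntegral_congr_fun measurableSet_Ioc fun s hs => ?_
    have h1 : A k (Ts s fun l => f l * sg (k + 1) l) = A k (fun l => s * Ts s f l) := by
      refine A_congr fun l hl => ?_
      have := Ts_sg hl hs.1.le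
      simp only [Ts] at this ⊢
      rw [this]; ring
    simp only [h1, A_mul_const, hφ]
    ring
  rw [hS, A_step hf.toBd]
  have hc0 : (0 : ℝ) < ((k : ℝ) + 2) / ((k : ℝ) + 1) := by positivity
  refine (mul_lt_mul_of_pos_left ?_ hc0)
  have e4 : ((k : ℝ) + 2) / ((k : ℝ) + 1) * s0 = 1 := by rw [hs0]; field_simp
  have h6 := mul_lt_mul_of_pos_left hkey hc0
  rw [← mul_assoc, e4, one_mul] at h6
  exact h6

end Pool.Agent.Helper89.SY.STR

end
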